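import Pool.Agent.Helper38.WY.Goals3
import Pool.Agent.Helper19.PB.XCNT
import Pool.Agent.Helper96.PB.XLIN

/-!
# Project WY: packet F_CNT (existence theorem by counting, no condition above `p`)
-/

set_option autoImplicit false

namespace Pool.Agent.Helper64.WY

open NumberField Module IsDedekindDomain
open Pool.Agent.Helper51.RP Pool.Agent.Helper42.PP
open Pool.Agent.Helper51.REC (Kum)
open Pool.Agent.Helper76.PB
open Pool.Agent.Helper38.WY (F_FIK F_CNT)
open Pool.Agent.Helper42.RD (ordv_eq_zero_iff)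
open Pool.Agent.Helper19.PB (dual_count two_fun subS val_one_of kummer_pow finrank_eq)
open Pool.Agent.Helper96.PB (Cl approx_cl cl_of_lt)

section linear

variable {p : ℕ} [Fact p.Prime] {G : Type} [CommGroup G]

theorem exists_coord_aux {p : ℕ} [Fact p.Prime] (V : Type) [AddCommGroup V] [Module (ZMod p) V]
    [Finite V] : ∃ (r : ℕ) (e : V → Fin r → ZMod p), (∀ x y, e (x + y) = e x + e y) ∧
      (∀ x, e x = 0 → x = 0) ∧ p ^ r = Nat.card V := by
  classical
  have hfm : Module.Finite (ZMod p) V := Module.Finite.of_finite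
  let b := Module.finBasis (ZMod p) V
  refine ⟨finrank (ZMod p) V, fun x => b.equivFun x, fun x y => map_add _ _ _,
    fun x hx => (LinearEquiv.map_eq_zero_iff b.equivFun).1 hx, ?_⟩
  let _ : Fintype V := Fintype.ofFinite _
  have h1 := Module.card_eq_pow_finrank (K := ZMod p) (V := V)
  rw [ZMod.card] at h1
  rw [← h1, ← Nat.card_eq_fintype_card]

/-- Coordinates for the classes modulo a subgroup `H` with `G ^ p ⊆ H` and finite quotient. -/
theorem exists_coord (H : Subgroup G) (hH : ∀ x : G, x ^ p ∈ H) [Finite (G ⧸ H)] :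
    ∃ (r : ℕ) (M : G → Fin r → ZMod p), (∀ x y, M (x * y) = M x + M y) ∧
      (∀ x, M x = 0 → x ∈ H) ∧ p ^ r = Nat.card (G ⧸ H) := by
  classical
  have h0 : ∀ q : Additive (G ⧸ H), p • q = 0 := by
    intro q
    induction q using Additive.rec with
    | ofMul q =>
      induction q using QuotientGroup.induction_on with
      | H z =>
        rw [← ofMul_pow, ← QuotientGroup.mk_pow, (QuotientGroup.eq_one_iff _).2 (hH z), ofMul_one]
  let _ : Module (ZMod p) (Additive (G ⧸ H)) := AddCommGroup.zmodModule h0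
  have hfin : Finite (Additive (G ⧸ H)) := inferInstanceAs (Finite (G ⧸ H))
  obtain ⟨r, e, he1, he2, he3⟩ := exists_coord_aux (p := p) (Additive (G ⧸ H))
  refine ⟨r, fun x => e (Additive.ofMul (QuotientGroup.mk x)), ?_, ?_, ?_⟩
  · intro x y
    show e (Additive.ofMul (QuotientGroup.mk (x * y))) = _
    rw [← he1, ← ofMul_mul, QuotientGroup.mk_mul]
  · intro x hx
    have h2 : (QuotientGroup.mk x : G ⧸ H) = 1 := he2 _ hx
    exact (QuotientGroup.eq_one_iff _).1 h2
  · rw [he3]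
    rfl

end linear

section main

variable {p : ℕ} [hpf : Fact p.Prime] {F : Type} [Field F] [NumberField F] {ε : F}

theorem kil_smul {Z : Set (HeightOneSpectrum (𝓞 F))} {f : Fˣ → ZMod p} (h : Kil p Z f)
    (c : ZMod p) : Kil p Z (fun x => c * f x) := by
  refine ⟨fun x y => ?_, fun x hx => ?_, fun x hx => ?_⟩
  · show c * f (x * y) = c * f x + c * f y
    rw [h.hom x y, mul_add]
  · show c * f x = 0
    rw [h.loc x hx, mul_zero]
  · show c * f x = 0
    rw [h.unit x hx, mul_zero]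

/-- If the functionals attached to `b` and `b'` are proportional then `b` is a power of `b'` up to a `p`-th
power. -/
theorem prop_pow [IsTotallyComplex F] (h2 : X_DB) (h3 : X_KLB) (hε : IsPrimitiveRoot ε p)
    {Z : Set (HeightOneSpectrum (𝓞 F))} (hZ : Z.Finite) (hab : abP p F ⊆ Z) (hpr : PrZ F Z)
    {b b' : Fˣ} (hb' : b' ∈ Z.unit F) (hn : ¬ Pw p b') {s s' : Fˣ → ZMod p} (hs : Kil p Z s)
    (hs0 : ∃ x, s x ≠ 0) (hv : ∀ w ∉ Z, LocPow p w (b : F) → Van Z s w)
    (hv' : ∀ w ∉ Z, LocPow p w (b' : F) → Van Z s' w) {c : ZMod p}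
    (hc : ∀ x, s x = c * s' x) : ∃ j < p, Pw p (b / b' ^ j) := by
  have hp : p.Prime := hpf.out
  obtain ⟨E, _, _, _, r, σ, hk⟩ := Pool.Agent.Helper53.REC.h_kum p F ε hε b' hn
  have hgal := hk.gal
  have hunr : UnrZ F E Z := by
    intro v hvZ W hW x
    refine (Pool.Agent.Helper28.REC.h_ram p F E ε b' r σ hε hk v (val_one_of hab v hvZ)).1 ?_ W hW x
    rw [(ordv_eq_zero_iff v b'.ne_zero).2 (hb' v hvZ)]
    exact dvd_zero _
  obtain ⟨y, hy⟩ := h2 p F E ε hε Z hZ hab hunr hpr s hs hs0 b hv (by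
    rintro w ⟨hw, W, hW, hfree⟩ x hx
    rw [hc]
    have h5 : LocPow p w (b' : F) := h3.1 p F E w W hW hfree (val_one_of hab w hw) b' r hk.root
      b'.ne_zero ((ordv_eq_zero_iff w b'.ne_zero).2 (hb' w hw))
    rw [hv' w hw h5 x hx, mul_zero])
  exact kummer_pow hε hk y hy

/-- The classes modulo `LocS` at the primes above `p`. -/
theorem lix_card (h4 : X_LIX) (hε : IsPrimitiveRoot ε p) :
    Finite (Fˣ ⧸ subS p (abP p F)) ∧
      Nat.card (Fˣ ⧸ subS p (abP p F)) ≤ p ^ (2 * (abP p F).ncard + finrank ℚ F) := by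
  classical
  have key : ∀ Q : Finset (Fˣ ⧸ subS p (abP p F)),
      Q.card ≤ p ^ (2 * (abP p F).ncard + finrank ℚ F) := by
    intro Q
    have h1 := h4 p F ε hε (Q.image Quotient.out) (by
      intro x hx y hy hxy hl
      rw [Finset.mem_image] at hx hy
      obtain ⟨q, hq, rfl⟩ := hx
      obtain ⟨q', hq', rfl⟩ := hy
      apply hxy
      congr 1
      have h2 : (Quotient.out q' : Fˣ)⁻¹ * Quotient.out q ∈ subS p (abP p F) := by
        have h3 : LocS p (abP p F) (Quotient.out q / Quotient.out q') := hl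
        rw [div_eq_mul_inv, mul_comm] at h3
        exact h3
      have h4 := QuotientGroup.eq.2 h2
      rw [QuotientGroup.out_eq', QuotientGroup.out_eq'] at h4
      exact h4.symm)
    rw [Finset.card_image_of_injective _ Quotient.out_injective] at h1
    exact h1
  have hfin : Finite (Fˣ ⧸ subS p (abP p F)) := by
    by_contra hinf
    have hinf' : Infinite (Fˣ ⧸ subS p (abP p F)) := not_finite_iff_infinite.1 hinf
    obtain ⟨Q, hQ⟩ := Infinite.exists_subset_card_eq (Fˣ ⧸ subS p (abP p F))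
      (p ^ (2 * (abP p F).ncard + finrank ℚ F) + 1)
    have h := key Q
    omega
  refine ⟨hfin, ?_⟩
  let _ : Fintype (Fˣ ⧸ subS p (abP p F)) := Fintype.ofFinite _
  rw [Nat.card_eq_fintype_card]
  exact key Finset.univ

/-- `LocS` at `Z` from the conditions at the primes above `p` and at the others. -/
theorem locS_glue {Z : Set (HeightOneSpectrum (𝓞 F))} (hZ : Z.Finite) {x : Fˣ}
    (h1 : LocS p (abP p F) x)
    (h2 : ∀ v ∈ Z, v.valuation F (p : F) = 1 → LocPow p v (x : F)) : LocS p Z x := by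
  classical
  have hp : p.Prime := hpf.out
  obtain ⟨y₁, hy₁⟩ := h1
  have hc : ∀ v : HeightOneSpectrum (𝓞 F), ∃ c : Fˣ, v ∈ Z → Cl p v ((x : F) * (c : F) ^ p) := by
    intro v
    by_cases hv : v ∈ Z
    · by_cases hvp : v ∈ abP p F
      · exact ⟨y₁, fun _ => hy₁ v hvp⟩
      · have hv1 : v.valuation F (p : F) = 1 := val_one_of (le_refl _) v hvp
        obtain ⟨c, hc⟩ := h2 v hv hv1
        have hc0 : c ≠ 0 := by
          rintro rfl
          rw [zero_pow hp.ne_zero, mul_zero, zero_sub, Valuation.map_neg, map_one] at hc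
          exact lt_irrefl _ hc
        exact ⟨Units.mk0 c hc0, fun _ => cl_of_lt hc hv1⟩
    · exact ⟨1, fun h => absurd h hv⟩
  choose c hc using hc
  obtain ⟨d, hd⟩ := approx_cl p hZ.toFinset c
  refine ⟨d, fun w hw => ?_⟩
  have h3 := (hc w hw).mul ((hd w (hZ.mem_toFinset.2 hw)).pow p)
  have e : (x : F) * (c w : F) ^ p * ((d : F) / (c w : F)) ^ p = (x : F) * (d : F) ^ p := by
    rw [div_pow, mul_assoc, mul_div_cancel₀ _ (pow_ne_zero _ (c w).ne_zero)]
  rw [e] at h3
  exact h3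

omit hpf in
/-- `p`-th powers satisfy `LocS`. -/
theorem locS_pow (Z : Set (HeightOneSpectrum (𝓞 F))) (x : Fˣ) : LocS p Z (x ^ p) := by
  refine ⟨x⁻¹, fun w _ => ?_⟩
  have e : ((x ^ p : Fˣ) : F) * ((x⁻¹ : Fˣ) : F) ^ p = 1 := by
    rw [← Units.val_pow_eq_pow_val, ← Units.val_mul, inv_pow, mul_inv_cancel, Units.val_one]
  rw [e, sub_self, map_zero]
  exact ⟨zero_lt_one, zero_le⟩

/-- A finite set which contains the functionals of local nature, and its size. -/
theorem exists_A (h4 : X_LIX) (h5 : X_UNL) (hε : IsPrimitiveRoot ε p)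
    {Z : Set (HeightOneSpectrum (𝓞 F))}
    (hZ : Z.Finite) (hab : abP p F ⊆ Z) (hinj : InjZ p F Z) :
    ∃ A : Finset (Fˣ → ZMod p), (∀ g, Kil p Z g → g ∈ A) ∧
      A.card * p ^ (Units.rank F + 1 + Z.ncard) ≤
        p ^ (2 * Z.ncard + finrank ℚ F) := by
  classical
  have hp : p.Prime := hpf.out
  obtain ⟨X₀, hc, hu, hne⟩ := h5 p F ε hε Z hZ
  obtain ⟨hfinQ, hcardQ⟩ := lix_card h4 hε
  obtain ⟨r, M, hM1, hM2, hr⟩ := exists_coord (p := p) (subS p (abP p F))
    (fun x => locS_pow (abP p F) x)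
  set T : Set (HeightOneSpectrum (𝓞 F)) := Z \ abP p F with hT
  have hTfin : T.Finite := hZ.subset Set.sdiff_subset
  let _ : Fintype T := hTfin.fintype
  have hval : ∀ v : HeightOneSpectrum (𝓞 F), v ∉ abP p F → v.valuation F (p : F) = 1 :=
    fun v hv => val_one_of (le_refl _) v hv
  have hex : ∀ v : T, ∃ L : Fˣ → Fin 2 → ZMod p, (∀ x y, L (x * y) = L x + L y) ∧
      ∀ x : Fˣ, L x = 0 → LocPow p v.1 (x : F) := fun v =>
    two_fun hε v.1 (hval v.1 v.2.2)
  choose L hL1 hL2 using hex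
  let Λ : Fˣ → (T × Fin 2) ⊕ Fin r → ZMod p := fun x =>
    Sum.elim (fun i => L i.1 x i.2) (fun i => M x i)
  have hΛ : ∀ x y, Λ (x * y) = Λ x + Λ y := by
    intro x y
    funext i
    rcases i with i | i
    · exact congrFun (hL1 i.1 x y) i.2
    · exact congrFun (hM1 x y) i
  have hker : ∀ x, Λ x = 0 → ∀ v ∈ Z, v.valuation F (p : F) = 1 → LocPow p v (x : F) := by
    intro x hx v hv hv1
    have hvT : v ∈ T := ⟨hv, fun h => by
      have h' : v.valuation F (p : F) < 1 := h
      rw [hv1] at h'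
      exact lt_irrefl _ h'⟩
    refine hL2 ⟨v, hvT⟩ x ?_
    funext i
    exact congrFun hx (Sum.inl (⟨v, hvT⟩, i))
  have hkerM : ∀ x, Λ x = 0 → LocS p (abP p F) x := by
    intro x hx
    refine hM2 x ?_
    funext i
    exact congrFun hx (Sum.inr i)
  have hinjX : Set.InjOn Λ X₀ := by
    intro x hx y hy hxy
    by_contra hne'
    refine hne x hx y hy hne' (hinj _ ((Z.unit F).div_mem (hu x hx) (hu y hy)) ?_)
    refine hker _ ?_
    have h := hΛ (x / y) y
    rw [div_mul_cancel, hxy] at h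
    simpa using h
  obtain ⟨A, hA1, hA2⟩ := dual_count Λ hΛ (Z.unit F) X₀ hu hinjX
  refine ⟨A, fun g hg => hA1 g hg.hom
    (fun x hx => hg.loc x (locS_glue hZ (hkerM x hx) (hker x hx))) hg.unit, ?_⟩
  rw [hc, Fintype.card_sum, Fintype.card_prod, Fintype.card_fin, Fintype.card_fin] at hA2
  have hTc : Fintype.card T + (abP p F).ncard = Z.ncard := by
    rw [← Set.toFinset_card, ← Set.ncard_eq_toFinset_card' T]
    exact Set.ncard_sdiff_add_ncard_of_subset hab hZ
  calc A.card * p ^ (Units.rank F + 1 + Z.ncard)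
      ≤ p ^ (Fintype.card T * 2 + r) := hA2
    _ = p ^ (Fintype.card T * 2) * p ^ r := pow_add _ _ _
    _ ≤ p ^ (Fintype.card T * 2) * p ^ (2 * (abP p F).ncard + finrank ℚ F) :=
        Nat.mul_le_mul_left _ (by rw [hr]; exact hcardQ)
    _ = p ^ (2 * Z.ncard + finrank ℚ F) := by
      rw [← pow_add, ← hTc]
      congr 1
      ring

end main

/-- **F_CNT.** -/
theorem f_cnt (h1 : F_FIK) (h2 : X_DB) (h3 : X_KLB) (h4 : X_LIX) (h5 : X_UNL) :
    Pool.Agent.Helper38.WY.F_CNT := by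
  classical
  intro p hpf F _ _ _ ε hε Z hZ hab hpr hinj f hf hf0
  have hp : p.Prime := hpf.out
  obtain ⟨X₀, hXc₀, hXu₀, hXn₀⟩ := h5 p F ε hε Z hZ
  obtain ⟨x₀, hx₀⟩ : X₀.Nonempty := by
    rw [← Finset.card_pos, hXc₀]
    exact pow_pos hp.pos _
  have hdinj : Function.Injective fun x : Fˣ => x / x₀ := div_left_injective
  obtain ⟨X, hX1, hXu, hXn, hXc⟩ : ∃ X : Finset Fˣ, 1 ∈ X ∧ (∀ x ∈ X, x ∈ Z.unit F) ∧
      (∀ x ∈ X, ∀ y ∈ X, x ≠ y → ¬ Pw p (x / y)) ∧
      X.card = p ^ (Units.rank F + 1 + Z.ncard) := by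
    refine ⟨X₀.image fun x => x / x₀, ?_, ?_, ?_, ?_⟩
    · rw [Finset.mem_image]
      exact ⟨x₀, hx₀, div_self' x₀⟩
    · intro y hy
      rw [Finset.mem_image] at hy
      obtain ⟨x, hx, rfl⟩ := hy
      exact (Z.unit F).div_mem (hXu₀ x hx) (hXu₀ x₀ hx₀)
    · intro y hy y' hy' hyy
      rw [Finset.mem_image] at hy hy'
      obtain ⟨x, hx, rfl⟩ := hy
      obtain ⟨x', hx', rfl⟩ := hy'
      rw [div_div_div_cancel_right]
      refine hXn₀ x hx x' hx' ?_
      rintro rfl
      exact hyy rfl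
    · rw [Finset.card_image_of_injective _ hdinj, hXc₀]
  obtain ⟨A, hA, hAc⟩ := exists_A h4 h5 hε hZ hab hinj
  have hAX : A.card ≤ X.card := by
    rw [hXc]
    set D := Units.rank F + 1 + Z.ncard with hD
    have hn : 2 * Z.ncard + finrank ℚ F = D + D := by
      rw [finrank_eq, hD]
      ring
    rw [hn, pow_add p D D] at hAc
    exact Nat.le_of_mul_le_mul_right hAc (pow_pos hp.pos _)
  -- the functionals of the Kummer extensions
  have hXne : ∀ b ∈ X.erase 1, ¬ Pw p b := by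
    intro b hb
    have h := hXn b (Finset.mem_of_mem_erase hb) 1 hX1 (Finset.ne_of_mem_erase hb)
    rwa [div_one] at h
  have hex : ∀ b : Fˣ, ∃ s : Fˣ → ZMod p, b ∈ X.erase 1 → Kil p Z s ∧ (∃ x, s x ≠ 0) ∧
      ∀ w ∉ Z, LocPow p w (b : F) → Van Z s w := by
    intro b
    by_cases hb : b ∈ X.erase 1
    · obtain ⟨s, hs⟩ := h1 p F ε hε Z hZ hab hpr b (hXu b (Finset.mem_of_mem_erase hb))
        (hXne b hb)
      exact ⟨s, fun _ => hs⟩
    · exact ⟨0, fun h => absurd h hb⟩
  choose s hs using hex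
  by_contra hcon
  -- `f` is not on the line of any `s b`
  have hnp : ∀ b ∈ X.erase 1, ∀ c : ZMod p, (fun x => c * f x) ≠ 0 → ∀ c' : ZMod p, c' ≠ 0 →
      (fun x => c' * s b x) ≠ fun x => c * f x := by
    intro b hb c hc c' hc' he
    apply hcon
    refine ⟨b, hXu b (Finset.mem_of_mem_erase hb), hXne b hb, fun w hw hl x hx => ?_⟩
    have hc0 : c ≠ 0 := by
      rintro rfl
      apply hc
      funext x
      show (0 : ZMod p) * f x = 0
      rw [zero_mul]
    have h6 : c' * s b x = c * f x := congrFun he x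
    rw [(hs b hb).2.2 w hw hl x hx, mul_zero] at h6
    exact (mul_eq_zero.1 h6.symm).resolve_left hc0
  have hfx : ∀ c : ZMod p, c ≠ 0 → (fun x => c * f x) ≠ 0 := by
    intro c hc h
    obtain ⟨x, hx⟩ := hf0
    exact (mul_ne_zero hc hx) (congrFun h x)
  set I : Finset (Fˣ → ZMod p) :=
    (Finset.univ.erase (0 : ZMod p)).image fun c => fun x => c * f x with hI
  have hIc : I.card = p - 1 := by
    rw [hI, Finset.card_image_of_injOn, Finset.card_erase_of_mem (Finset.mem_univ _),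
      Finset.card_univ, ZMod.card]
    intro c _ c' _ h
    obtain ⟨x, hx⟩ := hf0
    exact mul_right_cancel₀ hx (congrFun h x)
  have h0A : (0 : Fˣ → ZMod p) ∈ A := by
    have h := hA _ (kil_smul hf 0)
    have e : (fun x => (0 : ZMod p) * f x) = 0 := by
      funext x
      exact zero_mul _
    rwa [e] at h
  have hIA : I ⊆ A.erase 0 := by
    intro g hg
    rw [hI, Finset.mem_image] at hg
    obtain ⟨c, hc, rfl⟩ := hg
    exact Finset.mem_erase.2 ⟨hfx c (Finset.ne_of_mem_erase hc), hA _ (kil_smul hf c)⟩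
  set T : Finset (Fˣ → ZMod p) := A.erase 0 \ I with hT
  have hTc : T.card + p = A.card := by
    have h6 := Finset.card_sdiff_add_card_eq_card hIA
    rw [← hT, hIc, Finset.card_erase_of_mem h0A] at h6
    have h7 : 0 < A.card := Finset.card_pos.2 ⟨0, h0A⟩
    have h8 := hp.two_le
    omega
  set S : Finset (Fˣ × ZMod p) := X.erase 1 ×ˢ Finset.univ.erase 0 with hS
  have hSc : S.card = (X.card - 1) * (p - 1) := by
    rw [hS, Finset.card_product, Finset.card_erase_of_mem hX1,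
      Finset.card_erase_of_mem (Finset.mem_univ _), Finset.card_univ, ZMod.card]
  have hmaps : ∀ i ∈ S, (fun x => i.2 * s i.1 x) ∈ T := by
    intro i hi
    rw [hS, Finset.mem_product] at hi
    obtain ⟨hi1, hi2⟩ := hi
    have hi2' := Finset.ne_of_mem_erase hi2
    rw [hT, Finset.mem_sdiff, Finset.mem_erase]
    refine ⟨⟨?_, hA _ (kil_smul (hs i.1 hi1).1 i.2)⟩, ?_⟩
    · intro h
      obtain ⟨x, hx⟩ := (hs i.1 hi1).2.1
      exact (mul_ne_zero hi2' hx) (congrFun h x)
    · intro h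
      rw [hI, Finset.mem_image] at h
      obtain ⟨c, hc, hce⟩ := h
      exact hnp i.1 hi1 c (hfx c (Finset.ne_of_mem_erase hc)) i.2 hi2' hce.symm
  have hfib : ∀ g ∈ T, (S.filter fun i => (fun x => i.2 * s i.1 x) = g).card ≤ p - 1 := by
    intro g hg
    rcases (S.filter fun i => (fun x => i.2 * s i.1 x) = g).eq_empty_or_nonempty with he | hne
    · rw [he, Finset.card_empty]
      exact Nat.zero_le _
    obtain ⟨i₀, hi₀⟩ := hne
    rw [Finset.mem_filter, hS, Finset.mem_product] at hi₀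
    obtain ⟨⟨hb₀, hc₀⟩, hg₀⟩ := hi₀
    have key : ∀ i ∈ S.filter fun i => (fun x => i.2 * s i.1 x) = g,
        ∃ j < p, Pw p (i.1 / i₀.1 ^ j) := by
      intro i hi
      rw [Finset.mem_filter, hS, Finset.mem_product] at hi
      obtain ⟨⟨hb, hc⟩, hgi⟩ := hi
      have hc' := Finset.ne_of_mem_erase hc
      refine prop_pow h2 h3 hε hZ hab hpr (hXu i₀.1 (Finset.mem_of_mem_erase hb₀))
        (hXne i₀.1 hb₀) (hs i.1 hb).1 (hs i.1 hb).2.1 (hs i.1 hb).2.2 (hs i₀.1 hb₀).2.2
        (c := i.2⁻¹ * i₀.2) ?_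
      intro x
      have h6 : i.2 * s i.1 x = i₀.2 * s i₀.1 x := congrFun (hgi.trans hg₀.symm) x
      rw [mul_assoc, ← h6, inv_mul_cancel_left₀ hc']
    have hj : ∀ i : Fˣ × ZMod p, ∃ j : ℕ, i ∈ (S.filter fun i => (fun x => i.2 * s i.1 x) = g) →
        j < p ∧ Pw p (i.1 / i₀.1 ^ j) := by
      intro i
      by_cases hi : i ∈ S.filter fun i => (fun x => i.2 * s i.1 x) = g
      · obtain ⟨j, hj1, hj2⟩ := key i hi
        exact ⟨j, fun _ => ⟨hj1, hj2⟩⟩
      · exact ⟨0, fun h => absurd h hi⟩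
    choose j hj using hj
    have hcard : ((Finset.range p).erase 0).card = p - 1 := by
      rw [Finset.card_erase_of_mem (Finset.mem_range.2 hp.pos), Finset.card_range]
    rw [← hcard]
    refine Finset.card_le_card_of_injOn j ?_ ?_
    · intro i hi
      have hi' : i ∈ S.filter fun i => (fun x => i.2 * s i.1 x) = g := hi
      obtain ⟨h6, h7⟩ := hj i hi'
      rw [Finset.mem_coe, Finset.mem_erase, Finset.mem_range]
      refine ⟨fun h0 => ?_, h6⟩
      rw [h0, pow_zero, div_one] at h7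
      rw [Finset.mem_filter, hS, Finset.mem_product] at hi'
      exact hXne i.1 hi'.1.1 h7
    · intro i hi i' hi' hjj
      have hiS : i ∈ S.filter fun i => (fun x => i.2 * s i.1 x) = g := hi
      have hiS' : i' ∈ S.filter fun i => (fun x => i.2 * s i.1 x) = g := hi'
      obtain ⟨-, h7⟩ := hj i hiS
      obtain ⟨-, h7'⟩ := hj i' hiS'
      rw [hjj] at h7
      rw [Finset.mem_filter, hS, Finset.mem_product] at hiS hiS'
      have hb : i.1 = i'.1 := by
        by_contra hbb
        refine hXn i.1 (Finset.mem_of_mem_erase hiS.1.1) i'.1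
          (Finset.mem_of_mem_erase hiS'.1.1) hbb ?_
        obtain ⟨y, hy⟩ := h7
        obtain ⟨y', hy'⟩ := h7'
        refine ⟨y / y', ?_⟩
        rw [div_pow, ← hy, ← hy', div_div_div_cancel_right]
      have hc : i.2 = i'.2 := by
        obtain ⟨x, hx⟩ := (hs i.1 hiS.1.1).2.1
        have h8 : i.2 * s i.1 x = i'.2 * s i'.1 x := congrFun (hiS.2.trans hiS'.2.symm) x
        rw [← hb] at h8
        exact mul_right_cancel₀ hx h8
      exact Prod.ext hb hc
  have hfinal := Finset.card_le_mul_card_image_of_maps_to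
    (f := fun i : Fˣ × ZMod p => fun x => i.2 * s i.1 x) hmaps (p - 1) hfib
  rw [hSc, mul_comm] at hfinal
  have hp1 : 0 < p - 1 := by
    have := hp.two_le
    omega
  have h9 := Nat.le_of_mul_le_mul_left hfinal hp1
  have h10 : 0 < X.card := Finset.card_pos.2 ⟨1, hX1⟩
  have := hp.two_le
  omega

end Pool.Agent.Helper64.WY
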